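import Pool.Agent.H18.GGT.M17

/-!
# GBL Lfr: logarithmic frames at prime divisors

PROOF.  `lDer`: for `e = dualDer b i`, `i ≠ i₀`: `e (t) = 0` (`t = g i₀`, `b i₀ = D t`), `f = t^n u`, `E.ord u = 0`, so `e f / f = e u / u`; for `t • dualDer b i₀`: `t / f * ∂ f`, the same.
`jac_ne`: `jacL z e` is `jac z b` or `t * jac z b`; `jac z b ≠ 0` as in `GB/Reg.reg_jac_ne` (`b` and the `dz_j` are bases, `H23.exists_basis_kaehler`).
`exists_lfr`: `H23.exists_divisorCoords` for `H23.ofFano E`.  `pole_of_regL`: as `max_ord_form` in `GB/Max`; on the boundary `jacL z e = t * jac z b`, so `E.ord (f * jac z b ^ l) + l ≥ 0`.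
-/

set_option autoImplicit false

open MvPolynomial
open Pool.Agent.H23 (dualDer)
open Pool.Agent.H23.Fano (PrimeDivisorOver Form)
open Pool.Agent.H17LG.Variety (PoleAtMost)
open Pool.Agent.GB (jac)

namespace Pool.Agent.GBL

variable {K : Type} [Field K] [Algebra ℂ K] {k : ℕ} {Bd : PrimeDivisorOver K k → Prop} {E : PrimeDivisorOver K k}

private lemma ord_nat (E : PrimeDivisorOver K k) (n : ℤ) : 0 ≤ E.ord (n : K) := by
  have h := E.ord_const (n : ℂ)
  rwa [map_intCast] at h

private lemma ord_div_of_zero (E : PrimeDivisorOver K k) {a u : K} (ha : 0 ≤ E.ord a) (hu : E.ord u = 0) : 0 ≤ E.ord (a / u) := by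
  rcases eq_or_ne u 0 with rfl | hu0
  · rw [div_zero, E.ord.map_zero]
    exact le_top
  · have h1 : E.ord (a / u) + E.ord u = E.ord a := by
      rw [← E.ord.map_mul, div_mul_cancel₀ _ hu0]
    rw [hu, add_zero] at h1
    rwa [h1]

/-- a nonzero function is a power of the uniformizer times a unit -/
private lemma exists_unit (E : PrimeDivisorOver K k) {t : K} (ht : E.ord t = 1) {f : K} (hf : f ≠ 0) :
    ∃ (n : ℤ) (u : K), E.ord u = 0 ∧ f = t ^ n * u := by
  have ht0 : t ≠ 0 := by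
    rintro rfl
    rw [E.ord.map_zero] at ht
    exact absurd ht (by decide)
  have hfo : E.ord f ≠ ⊤ := fun h => hf (E.ord.top_iff.1 h)
  obtain ⟨n, hn⟩ := WithTop.ne_top_iff_exists.1 hfo
  have hpow : ∀ m : ℕ, E.ord (t ^ m) = ((m : ℤ) : WithTop ℤ) := by
    intro m
    rw [E.ord.map_pow, ht, nsmul_one]
    rfl
  have hz : E.ord (t ^ n) = (n : WithTop ℤ) := by
    rcases Int.eq_nat_or_neg n with ⟨m, rfl | rfl⟩
    · rw [zpow_natCast]; exact hpow m
    · rw [zpow_neg, zpow_natCast]
      have h1 : E.ord ((t ^ m)⁻¹) + E.ord (t ^ m) = 0 := by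
        rw [← E.ord.map_mul, inv_mul_cancel₀ (pow_ne_zero _ ht0), E.ord.map_one]
      rw [hpow m] at h1
      have h2 : E.ord ((t ^ m)⁻¹) ≠ ⊤ := fun h => (inv_ne_zero (pow_ne_zero m ht0)) (E.ord.top_iff.1 h)
      obtain ⟨q, hq⟩ := WithTop.ne_top_iff_exists.1 h2
      rw [← hq] at h1 ⊢
      have h3 : q + (m : ℤ) = 0 := by exact_mod_cast h1
      have h4 : q = -(m : ℤ) := by omega
      rw [h4]
  refine ⟨n, (t ^ n)⁻¹ * f, ?_, ?_⟩
  · have h1 : E.ord ((t ^ n)⁻¹ * f) + E.ord (t ^ n) = E.ord f := by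
      rw [← E.ord.map_mul]
      congr 1
      have := zpow_ne_zero n ht0
      field_simp
    rw [hz, ← hn] at h1
    have h2 : E.ord ((t ^ n)⁻¹ * f) ≠ ⊤ := by
      intro h
      rw [h, top_add] at h1
      exact absurd h1 (by simp)
    obtain ⟨q, hq⟩ := WithTop.ne_top_iff_exists.1 h2
    rw [← hq] at h1 ⊢
    have h3 : q + n = n := by exact_mod_cast h1
    have h4 : q = 0 := by omega
    rw [h4]
    rfl
  · rw [mul_inv_cancel_left₀ (zpow_ne_zero n ht0)]

theorem LFr.lDer {e : Fin k → Derivation ℂ K K} (h : LFr Bd E e) (i : Fin k) : LDer Bd E (e i) := by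
  obtain ⟨g, b, hb, hg, hreg, h1 | h1⟩ := h
  · obtain ⟨hBd, he⟩ := h1
    refine ⟨fun f hf => ?_, fun h => absurd h hBd⟩
    rw [he]
    exact hreg i f hf
  · obtain ⟨-, i₀, ht, he⟩ := h1
    have hei : ∀ f, 0 ≤ E.ord f → 0 ≤ E.ord (e i f) := by
      intro f hf
      rw [he]
      split_ifs with h
      · rw [Derivation.smul_apply, smul_eq_mul, E.ord.map_mul]
        exact add_nonneg (hg i₀) (hreg _ f hf)
      · exact hreg i f hf
    refine ⟨hei, fun _ f hf0 => ?_⟩
    have ht0 : g i₀ ≠ 0 := by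
      intro h0
      rw [h0, E.ord.map_zero] at ht
      exact absurd ht (by decide)
    -- the value on the uniformizer
    obtain ⟨n', hn'⟩ : ∃ n' : ℤ, e i (g i₀) = (n' : K) * g i₀ := by
      have h2 := Pool.Agent.H23.dualDer_coord b hb i i₀
      rw [he]
      split_ifs with h
      · refine ⟨1, ?_⟩
        have h3 := Pool.Agent.H23.dualDer_coord b hb i₀ i₀
        rw [if_pos rfl] at h3
        rw [Derivation.smul_apply, h3, smul_eq_mul, mul_one, Int.cast_one, one_mul]
      · refine ⟨0, ?_⟩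
        rw [if_neg h] at h2
        rw [h2, Int.cast_zero, zero_mul]
    obtain ⟨n, u, hu, hfu⟩ := exists_unit E ht hf0
    have hu0 : u ≠ 0 := by
      rintro rfl
      rw [mul_zero] at hfu
      exact hf0 hfu
    have h3 : e i f / f = ((n * n' : ℤ) : K) + e i u / u := by
      have h4 : e i (g i₀ ^ n) = (n : K) * g i₀ ^ n * n' := by
        rw [Derivation.leibniz_zpow, hn', zsmul_eq_mul, smul_eq_mul, zpow_sub_one₀ ht0]
        field_simp
      rw [hfu, Derivation.leibniz, smul_eq_mul, smul_eq_mul, h4]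
      have := zpow_ne_zero n ht0
      push_cast
      field_simp
      ring
    rw [h3]
    have hu' : 0 ≤ E.ord u := by rw [hu]
    exact le_trans (le_min (ord_nat E _) (ord_div_of_zero E (hei u hu') hu)) (E.ord.map_add _ _)

theorem LDer.sub {D D' : Derivation ℂ K K} (h : LDer Bd E D) (h' : LDer Bd E D') : LDer Bd E (D - D') := by
  refine ⟨fun f hf => ?_, fun hB f hf => ?_⟩
  · rw [Derivation.sub_apply]
    exact le_trans (le_min (h.1 f hf) (h'.1 f hf)) (E.ord.map_sub _ _)
  · rw [Derivation.sub_apply, sub_div]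
    exact le_trans (le_min (h.2 hB f hf) (h'.2 hB f hf)) (E.ord.map_sub _ _)

theorem LDer.smul {D : Derivation ℂ K K} (h : LDer Bd E D) {c : K} (hc : 0 ≤ E.ord c) : LDer Bd E (c • D) := by
  refine ⟨fun f hf => ?_, fun hB f hf => ?_⟩
  · rw [Derivation.smul_apply, smul_eq_mul, E.ord.map_mul]
    exact add_nonneg hc (h.1 f hf)
  · rw [Derivation.smul_apply, smul_eq_mul, mul_div_assoc, E.ord.map_mul]
    exact add_nonneg hc (h.2 hB f hf)

private lemma LDer.zero : LDer Bd E (0 : Derivation ℂ K K) := by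
  refine ⟨fun f _ => ?_, fun _ f _ => ?_⟩
  · rw [Derivation.zero_apply, E.ord.map_zero]; exact le_top
  · rw [Derivation.zero_apply, zero_div, E.ord.map_zero]; exact le_top

private lemma LDer.add {D D' : Derivation ℂ K K} (h : LDer Bd E D) (h' : LDer Bd E D') : LDer Bd E (D + D') := by
  refine ⟨fun f hf => ?_, fun hB f hf => ?_⟩
  · rw [Derivation.add_apply]
    exact le_trans (le_min (h.1 f hf) (h'.1 f hf)) (E.ord.map_add _ _)
  · rw [Derivation.add_apply, add_div]
    exact le_trans (le_min (h.2 hB f hf) (h'.2 hB f hf)) (E.ord.map_add _ _)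

theorem LDer.sum {κ : ℕ} {D : Fin κ → Derivation ℂ K K} (h : ∀ i, LDer Bd E (D i)) : LDer Bd E (∑ i, D i) := by
  classical
  have h1 : ∀ s : Finset (Fin κ), LDer Bd E (∑ i ∈ s, D i) := by
    intro s
    induction s using Finset.induction_on with
    | empty => rw [Finset.sum_empty]; exact LDer.zero
    | insert i s hi ih => rw [Finset.sum_insert hi]; exact (h i).add ih
  exact h1 _

private lemma LFr.exists_scale {e : Fin k → Derivation ℂ K K} (h : LFr Bd E e) :
    ∃ (b : Module.Basis (Fin k) K Ω[K⁄ℂ]) (u : Fin k → K), (∀ i, u i ≠ 0) ∧ ∀ i, e i = u i • dualDer b i := by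
  obtain ⟨g, b, hb, hg, hreg, h1 | h1⟩ := h
  · exact ⟨b, fun _ => 1, fun _ => one_ne_zero, fun i => by rw [h1.2 i, one_smul]⟩
  · obtain ⟨-, i₀, ht, he⟩ := h1
    refine ⟨b, fun i => if i = i₀ then g i₀ else 1, fun i => ?_, fun i => ?_⟩
    · dsimp only
      split_ifs
      · intro h0
        rw [h0, E.ord.map_zero] at ht
        exact absurd ht (by decide)
      · exact one_ne_zero
    · dsimp only
      rw [he]
      split_ifs with h
      · rw [h]
      · rw [one_smul]

private lemma jacL_scale {e : Fin k → Derivation ℂ K K} {b : Module.Basis (Fin k) K Ω[K⁄ℂ]} {u : Fin k → K} (he : ∀ i, e i = u i • dualDer b i) (z : Fin k → K) :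
    jacL z e = (∏ i, u i) * jac z b := by
  classical
  have hm : (Matrix.of fun i j => e i (z j)) = Matrix.diagonal u * (Matrix.of fun i j => dualDer b i (z j)) := by
    ext i j
    rw [Matrix.diagonal_mul, Matrix.of_apply, Matrix.of_apply, he i, Derivation.smul_apply, smul_eq_mul]
  unfold jacL jac
  rw [hm, Matrix.det_mul, Matrix.det_diagonal]

private lemma jac_ne_zero {z : Fin k → K} (hz : IsTranscendenceBasis ℂ z) (b : Module.Basis (Fin k) K Ω[K⁄ℂ]) : jac z b ≠ 0 := by
  classical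
  obtain ⟨c, hc⟩ := Pool.Agent.H23.exists_basis_kaehler hz
  have h1 : jac z b = b.det c := by
    rw [Module.Basis.det_apply]
    unfold jac
    congr 1
    ext i j
    rw [Matrix.of_apply, Module.Basis.toMatrix_apply, hc]
    rfl
  rw [h1]
  exact (Module.Basis.isUnit_det b c).ne_zero

theorem LFr.jac_ne {z : Fin k → K} (hz : IsTranscendenceBasis ℂ z) {e : Fin k → Derivation ℂ K K} (h : LFr Bd E e) : jacL z e ≠ 0 := by
  obtain ⟨b, u, hu, he⟩ := h.exists_scale
  rw [jacL_scale he]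
  exact mul_ne_zero (Finset.prod_ne_zero_iff.2 fun i _ => hu i) (jac_ne_zero hz b)

/-- the matrix of the derivatives of independent functions has independent columns -/
theorem LFr.indep {κ : ℕ} {φ : Fin κ → K} (hφ : LinearIndependent K fun i => KaehlerDifferential.D ℂ K (φ i)) {e : Fin k → Derivation ℂ K K}
    (h : LFr Bd E e) : LinearIndependent K fun (l : Fin κ) (i : Fin k) => e i (φ l) := by
  classical
  obtain ⟨b, u, hu, he⟩ := h.exists_scale
  rw [Fintype.linearIndependent_iff] at hφ ⊢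
  intro c hc
  apply hφ c
  apply b.ext_elem
  intro i
  rw [map_sum, map_zero, Finsupp.finsetSum_apply, Finsupp.zero_apply]
  have h1 := congrFun hc i
  rw [Finset.sum_apply, Pi.zero_apply] at h1
  have h2 : ∑ l, (c l • fun i => e i (φ l)) i = u i * ∑ l, (b.repr (c l • KaehlerDifferential.D ℂ K (φ l))) i := by
    rw [Finset.mul_sum]
    refine Finset.sum_congr rfl fun l _ => ?_
    rw [Pi.smul_apply, he i, Derivation.smul_apply, map_smul, Finsupp.smul_apply, Pool.Agent.H23.dualDer_apply]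
    simp only [smul_eq_mul]
    ring
  rw [h2] at h1
  exact (mul_eq_zero.1 h1).resolve_left (hu i)

theorem exists_lfr [Algebra.EssFiniteType ℂ K] (hk : 1 ≤ k) {z : Fin k → K} (hz : IsTranscendenceBasis ℂ z) (Bd : PrimeDivisorOver K k → Prop)
    (E : PrimeDivisorOver K k) : ∃ e, LFr Bd E e := by
  classical
  obtain ⟨k, rfl⟩ : ∃ k', k = k' + 1 := ⟨k - 1, by omega⟩
  obtain ⟨g, b, hb, ht, hg, hD⟩ := Pool.Agent.H23.exists_divisorCoords hz (Pool.Agent.H23.ofFano E)
  by_cases hB : Bd E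
  · exact ⟨fun i => if i = 0 then g 0 • dualDer b 0 else dualDer b i, g, b, hb, hg, hD, Or.inr ⟨hB, 0, ht, fun i => rfl⟩⟩
  · exact ⟨fun i => dualDer b i, g, b, hb, hg, hD, Or.inl ⟨hB, fun i => rfl⟩⟩

theorem pole_of_regL [Algebra.EssFiniteType ℂ K] (hk : 1 ≤ k) {z : Fin k → K} (hz : IsTranscendenceBasis ℂ z) {l : ℕ} {f : K} (h : RegL Bd z l f)
    (E : PrimeDivisorOver K k) : (¬ Bd E → PoleAtMost 0 E l f (Form.mk 1 z)) ∧ (Bd E → PoleAtMost l E l f (Form.mk 1 z)) := by
  classical
  obtain ⟨k, rfl⟩ : ∃ k', k = k' + 1 := ⟨k - 1, by omega⟩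
  obtain ⟨g, b, hb, ht, hg, hD⟩ := Pool.Agent.H23.exists_divisorCoords hz (Pool.Agent.H23.ofFano E)
  have hmem : Form.mk 1 g ∈ Pool.Agent.H23.Fano.regularForms (k + 1) E.localRing := by
    apply AddSubgroup.subset_closure
    refine ⟨1, g, ?_, hg, rfl⟩
    change 0 ≤ E.ord 1
    rw [E.ord.map_one]
  have hform : (Form.mk 1 z : Form K (k + 1)) = jac z b • Form.mk 1 g := by
    have h1 := Pool.Agent.H23.eq_fc_smul b (exteriorPower.ιMulti K (k + 1) fun i => KaehlerDifferential.D ℂ K (z i))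
    rw [Pool.Agent.H23.fc_ιMulti, Module.Basis.det_apply] at h1
    have h2 : (b.toMatrix fun i => KaehlerDifferential.D ℂ K (z i)).det = jac z b := rfl
    rw [h2] at h1
    have h3 : (exteriorPower.ιMulti K (k + 1) fun i => b i) = exteriorPower.ιMulti K (k + 1) fun i => KaehlerDifferential.D ℂ K (g i) := by
      simp only [hb]
    rw [h3] at h1
    change (1 : K) • (exteriorPower.ιMulti K (k + 1) fun i => KaehlerDifferential.D ℂ K (z i)) =
      jac z b • ((1 : K) • (exteriorPower.ιMulti K (k + 1) fun i => KaehlerDifferential.D ℂ K (g i)))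
    rw [one_smul, one_smul]
    exact h1
  refine ⟨fun hB => ⟨jac z b, Form.mk 1 g, hmem, hform, ?_⟩, fun hB => ⟨jac z b, Form.mk 1 g, hmem, hform, ?_⟩⟩
  · have hL : LFr Bd E (fun i => dualDer b i) := ⟨g, b, hb, hg, hD, Or.inl ⟨hB, fun i => rfl⟩⟩
    have h1 := h E _ hL
    have h2 : jacL z (fun i => dualDer b i) = jac z b := rfl
    rw [h2] at h1
    simpa using h1
  · have hL : LFr Bd E (fun i => if i = 0 then g 0 • dualDer b 0 else dualDer b i) := ⟨g, b, hb, hg, hD, Or.inr ⟨hB, 0, ht, fun i => rfl⟩⟩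
    have h1 := h E _ hL
    have h2 : jacL z (fun i => if i = 0 then g 0 • dualDer b 0 else dualDer b i) = g 0 * jac z b := by
      rw [jacL_scale (b := b) (u := fun i => if i = 0 then g 0 else 1)]
      · rw [Finset.prod_ite_eq' Finset.univ (0 : Fin (k + 1)) (fun _ => g 0), if_pos (Finset.mem_univ _)]
      · intro i
        split_ifs with h
        · rw [h]
        · rw [one_smul]
    rw [h2, mul_pow] at h1
    have h3 : f * (g 0 ^ l * jac z b ^ l) = (f * jac z b ^ l) * g 0 ^ l := by ring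
    have ht' : E.ord (g 0) = 1 := ht
    rw [h3, E.ord.map_mul, E.ord.map_pow, ht', nsmul_one] at h1
    exact h1

end Pool.Agent.GBL
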